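import Pool.Agent.helper48.AN.SpecP

/-!
# Project an, module PM1: `[K : K^p] = p^n` gives `n` independent derivations
-/

namespace AN

open Polynomial IntermediateField

section

variable {p : ℕ} [hp : Fact p.Prime] {K : Type} [Field K] [CharP K p]

theorem PM1_minpoly {E : Type} [Field E] [Algebra E K] (x : K) (a : E)
    (ha : algebraMap E K a = x ^ p) (hx : ∀ b : E, algebraMap E K b ≠ x) :
    minpoly E x = X ^ p - C a := by
  symm
  apply minpoly.eq_of_irreducible_of_monic
  · apply X_pow_sub_C_irreducible_of_prime hp.out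
    intro b hb
    apply hx b
    have h : (algebraMap E K b) ^ p = x ^ p := by rw [← map_pow, hb, ha]
    exact frobenius_inj K p h
  · simp [ha]
  · exact monic_X_pow_sub_C a hp.out.ne_zero

omit [CharP K p] in
theorem PM1_int {E : Type} [Field E] [Algebra E K] (x : K) (a : E)
    (ha : algebraMap E K a = x ^ p) : IsIntegral E x :=
  ⟨X ^ p - C a, monic_X_pow_sub_C a hp.out.ne_zero, by
    rw [eval₂_sub, eval₂_X_pow, eval₂_C, ha, sub_self]⟩

theorem PM1_der {E : Type} [Field E] [Algebra E K] (x : K) (a : E)
    (ha : algebraMap E K a = x ^ p) (hx : ∀ b : E, algebraMap E K b ≠ x)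
    (hgen : ∀ y : K, ∃ f : Polynomial E, aeval x f = y) :
    ∃ D : Derivation ℤ K K, (∀ e : E, D (algebraMap E K e) = 0) ∧ D x = 1 := by
  choose f hf using hgen
  have hchar : CharP E p := RingHom.charP (algebraMap E K) (algebraMap E K).injective p
  have key : ∀ g h : Polynomial E, aeval x g = aeval x h →
      aeval x (derivative g) = aeval x (derivative h) := by
    intro g h hgh
    obtain ⟨q, hq⟩ : minpoly E x ∣ g - h := minpoly.dvd E x (by rw [map_sub, hgh, sub_self])
    have h2 : derivative g - derivative h =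
        derivative (minpoly E x) * q + minpoly E x * derivative q := by
      rw [← derivative_sub, hq, derivative_mul]
    have h3 : derivative (minpoly E x) = 0 := by
      rw [PM1_minpoly x a ha hx, derivative_sub, derivative_X_pow, CharP.cast_eq_zero]
      simp
    have h4 := congrArg (aeval x) h2
    rw [h3, zero_mul, zero_add, map_mul, minpoly.aeval, zero_mul, map_sub] at h4
    exact sub_eq_zero.1 h4
  let D0 : K →+ K :=
    { toFun := fun y => aeval x (derivative (f y))
      map_zero' := by
        rw [key (f 0) 0 (by rw [hf, map_zero])]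
        simp
      map_add' := fun y z => by
        rw [key (f (y + z)) (f y + f z) (by rw [hf, map_add, hf, hf]), derivative_add, map_add] }
  refine ⟨Derivation.mk' D0.toIntLinearMap ?_, ?_, ?_⟩
  · intro y z
    change aeval x (derivative (f (y * z))) =
      y • aeval x (derivative (f z)) + z • aeval x (derivative (f y))
    rw [key (f (y * z)) (f y * f z) (by rw [hf, map_mul, hf, hf]), derivative_mul, map_add, map_mul,
      map_mul, hf, hf, smul_eq_mul, smul_eq_mul]
    ring
  · intro e
    change aeval x (derivative (f (algebraMap E K e))) = 0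
    rw [key (f (algebraMap E K e)) (C e) (by rw [hf, aeval_C])]
    simp
  · change aeval x (derivative (f x)) = 1
    rw [key (f x) X (by rw [hf, aeval_X])]
    simp

theorem PM1_adj {E : Type} [Field E] [Algebra E K] (x : K) (a : E)
    (ha : algebraMap E K a = x ^ p) (hx : ∀ b : E, algebraMap E K b ≠ x) :
    Module.finrank E E⟮x⟯ = p := by
  rw [IntermediateField.adjoin.finrank (PM1_int x a ha), PM1_minpoly x a ha hx,
    natDegree_X_pow_sub_C]

theorem PM1_tower {E : Type} [Field E] [Algebra E K] (x : K) (a : E)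
    (ha : algebraMap E K a = x ^ p) (hx : ∀ b : E, algebraMap E K b ≠ x) (n : ℕ)
    (hn : Module.finrank E K = p ^ (n + 1)) : Module.finrank E⟮x⟯ K = p ^ n := by
  have h := Module.finrank_mul_finrank E E⟮x⟯ K
  rw [PM1_adj x a ha hx, hn, pow_succ'] at h
  exact Nat.eq_of_mul_eq_mul_left hp.out.pos h

theorem PM1_one (n : ℕ) : ∀ (E : Type) [Field E] [Algebra E K],
    (∀ y : K, ∃ a : E, algebraMap E K a = y ^ p) → Module.finrank E K = p ^ n →
    ∀ x : K, (∀ b : E, algebraMap E K b ≠ x) →
    ∃ D : Derivation ℤ K K, (∀ e : E, D (algebraMap E K e) = 0) ∧ D x = 1 := by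
  induction n with
  | zero =>
    intro E _ _ _ hn x hx
    exfalso
    have h1 : (⊥ : IntermediateField E K) = ⊤ := by
      rw [pow_zero] at hn
      exact IntermediateField.bot_eq_top_iff_finrank_eq_one.2 hn
    have h2 : x ∈ (⊥ : IntermediateField E K) := by rw [h1]; trivial
    obtain ⟨b, hb⟩ := IntermediateField.mem_bot.1 h2
    exact hx b hb
  | succ n ih =>
    intro E _ _ hfr hn x hx
    obtain ⟨a, ha⟩ := hfr x
    by_cases hall : ∀ y : K, y ∈ E⟮x⟯
    · refine PM1_der x a ha hx fun y => ?_
      have h1 := hall y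
      rw [← IntermediateField.mem_toSubalgebra,
        IntermediateField.adjoin_simple_toSubalgebra_of_isAlgebraic
          (PM1_int x a ha).isAlgebraic] at h1
      rw [Algebra.adjoin_singleton_eq_range_aeval] at h1
      exact h1
    · push Not at hall
      obtain ⟨y, hy⟩ := hall
      obtain ⟨b, hb⟩ := hfr y
      have hy' : ∀ c : E, algebraMap E K c ≠ y := fun c hc => hy (hc ▸ E⟮x⟯.algebraMap_mem c)
      have hx' : ∀ c : E⟮y⟯, algebraMap E⟮y⟯ K c ≠ x := by
        intro c hc
        apply hy
        have h1 : x ∈ E⟮y⟯ := hc ▸ c.2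
        have h2 : E⟮x⟯ ≤ E⟮y⟯ := by
          rw [IntermediateField.adjoin_simple_le_iff]
          exact h1
        have hfin : FiniteDimensional E E⟮y⟯ := IntermediateField.adjoin.finiteDimensional (PM1_int y b hb)
        have h3 : E⟮x⟯ = E⟮y⟯ := IntermediateField.eq_of_le_of_finrank_eq h2
          (by rw [PM1_adj x a ha hx, PM1_adj y b hb hy'])
        rw [h3]
        exact IntermediateField.mem_adjoin_simple_self E y
      obtain ⟨D, hD1, hD2⟩ := ih E⟮y⟯ (fun z => by
        obtain ⟨c, hc⟩ := hfr z
        exact ⟨algebraMap E E⟮y⟯ c, by rw [← hc]; rfl⟩) (PM1_tower y b hb hy' n hn) x hx'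
      exact ⟨D, fun e => hD1 (algebraMap E E⟮y⟯ e), hD2⟩

theorem PM1_all (n : ℕ) : ∀ (E : Type) [Field E] [Algebra E K],
    (∀ y : K, ∃ a : E, algebraMap E K a = y ^ p) → Module.finrank E K = p ^ n →
    ∃ D : Fin n → Derivation ℤ K K, LinearIndependent K D ∧
      ∀ i, ∀ e : E, D i (algebraMap E K e) = 0 := by
  induction n with
  | zero =>
    intro E _ _ _ hn
    exact ⟨fun i => i.elim0, linearIndependent_empty_type, fun i => i.elim0⟩
  | succ n ih =>
    intro E _ _ hfr hn
    obtain ⟨x, hx⟩ : ∃ x : K, ∀ b : E, algebraMap E K b ≠ x := by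
      by_contra hcon
      push Not at hcon
      have h1 : (⊥ : IntermediateField E K) = ⊤ := by
        rw [eq_top_iff]
        intro y _
        exact IntermediateField.mem_bot.2 (hcon y)
      rw [IntermediateField.bot_eq_top_iff_finrank_eq_one, hn, pow_succ] at h1
      have h2 := Nat.eq_one_of_mul_eq_one_left h1
      exact hp.out.one_lt.ne' h2
    obtain ⟨a, ha⟩ := hfr x
    obtain ⟨D, hD1, hD2⟩ := ih E⟮x⟯ (fun z => by
        obtain ⟨c, hc⟩ := hfr z
        exact ⟨algebraMap E E⟮x⟯ c, by rw [← hc]; rfl⟩) (PM1_tower x a ha hx n hn)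
    obtain ⟨D0, h01, h02⟩ := PM1_one (n + 1) E hfr hn x hx
    refine ⟨Fin.cons D0 D, ?_, ?_⟩
    · rw [linearIndependent_finCons]
      refine ⟨hD1, fun hmem => ?_⟩
      have h1 : ∀ d ∈ Submodule.span K (Set.range D), d x = 0 := by
        intro d hd
        induction hd using Submodule.span_induction with
        | mem d hd =>
          obtain ⟨i, rfl⟩ := hd
          exact hD2 i ⟨x, IntermediateField.mem_adjoin_simple_self E x⟩
        | zero => rfl
        | add d d' _ _ h h' => rw [Derivation.add_apply, h, h', add_zero]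
        | smul c d _ h => rw [Derivation.smul_apply, h, smul_zero]
      have h2 := h1 D0 hmem
      rw [h02] at h2
      exact one_ne_zero h2
    · intro i e
      refine Fin.cases ?_ (fun j => ?_) i
      · exact h01 e
      · exact hD2 j (algebraMap E E⟮x⟯ e)

end

theorem PM1 : PM1_stmt := by
  intro p hp K _ _ n hn
  obtain ⟨D, hD, -⟩ := PM1_all (p := p) n (frobenius K p).fieldRange
    (fun y => ⟨⟨y ^ p, ⟨y, rfl⟩⟩, rfl⟩) hn
  exact ⟨D, hD⟩

end AN
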