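import Pool.Agent.helper48.AN.SpecP

/-!
# Project an, module PM2: `[K : K^p]` is invariant under finite extensions
-/

namespace AN

theorem PM2 : PM2_stmt := by
  intro p hp K₀ K _ _ _ _ _ hfin
  let ι : (frobenius K₀ p).fieldRange →+* (frobenius K p).fieldRange :=
    ((algebraMap K₀ K).comp (frobenius K₀ p).fieldRange.subtype).codRestrict
      (frobenius K p).fieldRange (by
        rintro ⟨x, y, rfl⟩
        exact ⟨algebraMap K₀ K y, by
          simp [frobenius_def]⟩)
  letI a1 : Algebra (frobenius K₀ p).fieldRange (frobenius K p).fieldRange := ι.toAlgebra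
  have t1 : IsScalarTower (frobenius K₀ p).fieldRange (frobenius K p).fieldRange K := by
    refine ⟨fun a b x => ?_⟩
    change (algebraMap K₀ K a * (b : K)) * x = (a : K₀) • ((b : K) * x)
    rw [Algebra.smul_def, mul_assoc]
  have h1 := Module.finrank_mul_finrank (frobenius K₀ p).fieldRange (frobenius K p).fieldRange K
  have h2 := Module.finrank_mul_finrank (frobenius K₀ p).fieldRange K₀ K
  have h3 : Module.finrank K₀ K =
      Module.finrank (frobenius K₀ p).fieldRange (frobenius K p).fieldRange := by
    refine Algebra.finrank_eq_of_equiv_equiv (frobenius K₀ p).rangeRestrictFieldEquiv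
      (frobenius K p).rangeRestrictFieldEquiv ?_
    ext x
    change algebraMap K₀ K (x ^ p) = (algebraMap K₀ K x) ^ p
    rw [map_pow]
  rw [← h3, ← h2, mul_comm] at h1
  exact Nat.eq_of_mul_eq_mul_right Module.finrank_pos h1

end AN
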