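import Pool.Agent.helper48.AN.SpecP
import Pool.Agent.helper91.AN.PM4

/-!
# Project an, module PM3: the `p`-degree of `k((X_1, ..., X_n))`
-/

namespace AN

open scoped Classical

noncomputable section

theorem PM3_uniq {p : ℕ} [hpf : Fact p.Prime] {k : Type} [Field k] [CharP k p] {N : ℕ}
    (c : (Fin N → Fin p) → BB k N)
    (h : ∑ α, c α ^ p * MvPowerSeries.monomial (PM4_al α) (1 : k) = 0) (α : Fin N → Fin p) :
    c α = 0 := by
  ext m
  have h1 := congrArg (MvPowerSeries.coeff (p • m + PM4_al α)) h
  rw [map_sum, map_zero, Finset.sum_eq_single α] at h1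
  · rw [MvPowerSeries.coeff_mul_monomial, if_pos le_add_self, mul_one, add_tsub_cancel_right,
      PM4_pow] at h1
    rw [map_zero]
    exact (pow_eq_zero_iff hpf.out.ne_zero).1 h1
  · intro β _ hβ
    rw [MvPowerSeries.coeff_mul_monomial]
    split_ifs with hle
    · rw [mul_one]
      obtain ⟨i, hi⟩ : ∃ i, β i ≠ α i := by
        by_contra hcon
        push Not at hcon
        exact hβ (funext hcon)
      refine PM4_pow0 _ _ (i := i) ?_
      intro hdv
      apply hi
      have h3 : (PM4_al β) i ≤ (p • m + PM4_al α) i := hle i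
      have h4 : (p • m + PM4_al α - PM4_al β) i = p * m i + α i - β i := rfl
      have h5 : (PM4_al β) i = β i := rfl
      have h6 : (p • m + PM4_al α) i = p * m i + α i := rfl
      rw [h4] at hdv
      rw [h5, h6] at h3
      have h7 : (β i : ℕ) ≡ p * m i + α i [MOD p] := (Nat.modEq_iff_dvd' h3).2 hdv
      have h8 : p * m i + α i ≡ α i [MOD p] := by simp [Nat.ModEq]
      have h9 := h7.trans h8
      apply Fin.ext
      rw [Nat.ModEq, Nat.mod_eq_of_lt (β i).2, Nat.mod_eq_of_lt (α i).2] at h9
      exact h9
    · rfl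
  · intro h
    exact absurd (Finset.mem_univ _) h

theorem PM3 : PM3_stmt := by
  intro p hp k _ _ _ n K _ _ _ _
  set e : (Fin n → Fin p) → K := fun α =>
    algebraMap (BB k n) K (MvPowerSeries.monomial (PM4_al α) (1 : k)) with he
  have hinj : Function.Injective (algebraMap (BB k n) K) := IsFractionRing.injective _ _
  have hli : LinearIndependent (frobenius K p).fieldRange e := by
    rw [Fintype.linearIndependent_iff]
    intro g hg α
    have hg' : ∀ α, ∃ y : K, (g α : K) = y ^ p := fun α => by
      obtain ⟨y, hy⟩ := (g α).2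
      exact ⟨y, hy.symm⟩
    choose y hy using hg'
    obtain ⟨d, hd⟩ := IsLocalization.exist_integer_multiples_of_finite (nonZeroDivisors (BB k n)) y
    choose c hc using hd
    have hd0 : algebraMap (BB k n) K d ≠ 0 := by
      intro h
      exact nonZeroDivisors.coe_ne_zero d (hinj (by rw [h, map_zero]))
    have h1 : ∑ α, c α ^ p * MvPowerSeries.monomial (PM4_al α) (1 : k) = 0 := by
      apply hinj
      rw [map_sum, map_zero]
      have h2 : ∀ α, algebraMap (BB k n) K (c α ^ p * MvPowerSeries.monomial (PM4_al α) (1 : k)) =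
          algebraMap (BB k n) K d ^ p * (g α • e α) := by
        intro α
        have h3 : g α • e α = (g α : K) * e α := rfl
        rw [h3, hy, map_mul, map_pow, hc, Algebra.smul_def, mul_pow]
        ring
      rw [Finset.sum_congr rfl fun α _ => h2 α, ← Finset.mul_sum, hg, mul_zero]
    have h2 := PM3_uniq c h1 α
    have h3 := hc α
    rw [h2, map_zero, Algebra.smul_def] at h3
    have h4 : y α = 0 := (mul_eq_zero.1 h3.symm).resolve_left hd0
    apply Subtype.ext
    rw [hy, h4, zero_pow hp.out.ne_zero]
    rfl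
  have hsp : ⊤ ≤ Submodule.span (frobenius K p).fieldRange (Set.range e) := by
    rintro z -
    obtain ⟨a, b, hb, rfl⟩ := IsFractionRing.div_surjective (A := BB k n) z
    obtain ⟨c, hc⟩ := PM4_dec (p := p) (a * b ^ (p - 1))
    have hb0 : algebraMap (BB k n) K b ≠ 0 := by
      intro h
      exact nonZeroDivisors.ne_zero hb (hinj (by rw [h, map_zero]))
    have h : algebraMap (BB k n) K a / algebraMap (BB k n) K b =
        ∑ α, (⟨(algebraMap (BB k n) K (c α) / algebraMap (BB k n) K b) ^ p, ⟨_, rfl⟩⟩ :
          (frobenius K p).fieldRange) • e α := by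
      have h1 : ∀ α, (⟨(algebraMap (BB k n) K (c α) / algebraMap (BB k n) K b) ^ p, ⟨_, rfl⟩⟩ :
          (frobenius K p).fieldRange) • e α = ((algebraMap (BB k n) K b) ^ p)⁻¹ *
            algebraMap (BB k n) K (c α ^ p * MvPowerSeries.monomial (PM4_al α) (1 : k)) := by
        intro α
        have h3 : (⟨(algebraMap (BB k n) K (c α) / algebraMap (BB k n) K b) ^ p, ⟨_, rfl⟩⟩ :
          (frobenius K p).fieldRange) • e α =
            (algebraMap (BB k n) K (c α) / algebraMap (BB k n) K b) ^ p * e α := rfl
        rw [h3, map_mul, map_pow, div_pow]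
        simp only [he]
        field_simp
      rw [Finset.sum_congr rfl fun α _ => h1 α, ← Finset.mul_sum, ← map_sum, ← hc, map_mul, map_pow]
      obtain ⟨q, hq⟩ : ∃ q, p = q + 1 := ⟨p - 1, by have := hp.out.pos; omega⟩
      rw [show p - 1 = q by omega, hq, pow_succ]
      field_simp
    rw [h]
    exact Submodule.sum_mem _ fun α _ => Submodule.smul_mem _ _ (Submodule.subset_span ⟨α, rfl⟩)
  rw [Module.finrank_eq_card_basis (Module.Basis.mk hli hsp)]
  simp

end

end AN
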