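import Pool.Agent.helper48.AN.SpecP

/-!
# Project an, module PO2: a domain finite over `k[[X]]` embeds in `k[[X]]`
-/

namespace AN

open scoped Classical

section

variable {k : Type} [Field k] {L : Type} [Field L] {Γ : Type*} [LinearOrderedCommGroupWithZero Γ]

theorem PO2_fac (r : PowerSeries k) (hr : r ≠ 0) :
    ∃ (m : ℕ) (s : PowerSeries k), PowerSeries.constantCoeff s ≠ 0 ∧ r = PowerSeries.X ^ m * s :=
  ⟨r.order.toNat, r.divXPowOrder,
    fun h => hr (PowerSeries.constantCoeff_divXPowOrder_eq_zero_iff.1 h),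
    PowerSeries.X_pow_order_mul_divXPowOrder.symm⟩

theorem PO2_unit {v : Valuation L Γ} {f : PowerSeries k →+* L} (hv1 : ∀ r, v (f r) ≤ 1)
    {s : PowerSeries k} (hs : PowerSeries.constantCoeff s ≠ 0) : v (f s) = 1 := by
  have h1 : s * s⁻¹ = 1 := PowerSeries.mul_inv_cancel s hs
  have h2 : v (f s) * v (f s⁻¹) = 1 := by rw [← map_mul, ← map_mul, h1, map_one, map_one]
  refine le_antisymm (hv1 s) ?_
  calc (1 : Γ) = v (f s) * v (f s⁻¹) := h2.symm
    _ ≤ v (f s) * 1 := by gcongr; exact hv1 _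
    _ = v (f s) := mul_one _

theorem PO2_val {v : Valuation L Γ} {f : PowerSeries k →+* L} (hv1 : ∀ r, v (f r) ≤ 1)
    {r : PowerSeries k} (hr : r ≠ 0) : ∃ m : ℕ, v (f r) = v (f PowerSeries.X) ^ m := by
  obtain ⟨m, s, hs, rfl⟩ := PO2_fac r hr
  exact ⟨m, by rw [map_mul, map_mul, PO2_unit hv1 hs, mul_one, map_pow, map_pow]⟩

/-- two terms of a vanishing sum have the same valuation -/
theorem PO2_two {v : Valuation L Γ} {ι : Type} (S : Finset ι) (g : ι → L) (h0 : ∑ i ∈ S, g i = 0)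
    {t : ι} (ht : t ∈ S) (hg : g t ≠ 0) : ∃ i ∈ S, ∃ j ∈ S, i ≠ j ∧ g i ≠ 0 ∧ v (g i) = v (g j) := by
  by_contra hcon
  push Not at hcon
  obtain ⟨i, hi, hmax⟩ := Finset.exists_max_image S (fun i => v (g i)) ⟨t, ht⟩
  have hgi : g i ≠ 0 := by
    intro h
    have h1 := hmax t ht
    simp only [h, map_zero] at h1
    exact hg ((Valuation.zero_iff v).1 (le_zero_iff.1 h1))
  have h1 : v (∑ j ∈ S.erase i, g j) < v (g i) := by
    refine Valuation.map_sum_lt v ((Valuation.ne_zero_iff v).2 hgi) fun j hj => ?_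
    have h2 := hcon i hi j (Finset.mem_of_mem_erase hj) (Finset.ne_of_mem_erase hj).symm hgi
    exact lt_of_le_of_ne (hmax j (Finset.mem_of_mem_erase hj)) h2.symm
  have h2 : v (g i + ∑ j ∈ S.erase i, g j) = v (g i) := Valuation.map_add_eq_of_lt_left v h1
  rw [Finset.add_sum_erase S g hi, h0, map_zero] at h2
  exact hgi ((Valuation.zero_iff v).1 h2.symm)

/-- the hypothesis: bounded degree over `k[[X]]` -/
def PO2_deg (f : PowerSeries k →+* L) (e : ℕ) : Prop :=
  ∀ x : L, ∃ s : ℕ → PowerSeries k, (∃ t ≤ e, s t ≠ 0) ∧ ∑ t ∈ Finset.range (e + 1), f (s t) * x ^ t = 0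

theorem PO2_disc {v : Valuation L Γ} {f : PowerSeries k →+* L} (hv1 : ∀ r, v (f r) ≤ 1)
    (hf : Function.Injective f) {e : ℕ} (hd : PO2_deg f e) (x : L) (hx : x ≠ 0) :
    ∃ j : ℤ, v x ^ e.factorial = v (f PowerSeries.X) ^ j := by
  obtain ⟨s, ⟨t, hte, hst⟩, h0⟩ := hd x
  have hX : v (f PowerSeries.X) ≠ 0 := by
    rw [Valuation.ne_zero_iff]
    intro h
    rw [← map_zero f] at h
    exact PowerSeries.X_ne_zero (hf h)
  have hvx : v x ≠ 0 := (Valuation.ne_zero_iff v).2 hx
  have hfs : ∀ i, s i ≠ 0 → f (s i) ≠ 0 := fun i hi h => hi (hf (by rw [h, map_zero]))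
  obtain ⟨i, hi, j, hj, hij, hgi, hv⟩ := PO2_two (v := v) _ _ h0 (Finset.mem_range.2 (by omega : t < e + 1))
    (mul_ne_zero (hfs t hst) (pow_ne_zero t hx))
  have key : ∀ i j : ℕ, i < j → j ≤ e → s i ≠ 0 → s j ≠ 0 →
      v (f (s i) * x ^ i) = v (f (s j) * x ^ j) →
      ∃ l : ℤ, v x ^ e.factorial = v (f PowerSeries.X) ^ l := by
    intro i j hij hj hsi hsj h
    obtain ⟨m, hm⟩ := PO2_val hv1 hsi
    obtain ⟨m', hm'⟩ := PO2_val hv1 hsj
    rw [map_mul, map_mul, map_pow, map_pow, hm, hm'] at h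
    obtain ⟨c, hc⟩ : (j - i) ∣ e.factorial := Nat.dvd_factorial (by omega) (by omega)
    refine ⟨((m : ℤ) - m') * c, ?_⟩
    have h1 : v x ^ (j - i) = v (f PowerSeries.X) ^ ((m : ℤ) - m') := by
      rw [zpow_sub₀ hX, zpow_natCast, zpow_natCast, eq_div_iff (pow_ne_zero _ hX)]
      have h2 : v x ^ j = v x ^ i * v x ^ (j - i) := by
        rw [← pow_add]
        congr 1
        omega
      rw [h2] at h
      have h3 : v x ^ i ≠ 0 := pow_ne_zero _ hvx
      apply mul_left_cancel₀ h3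
      rw [← mul_assoc, mul_comm, ← h, mul_comm]
    rw [hc, pow_mul, h1, zpow_mul, zpow_natCast]
  have hsi : s i ≠ 0 := by
    intro h
    apply hgi
    rw [h, map_zero, zero_mul]
  have hsj : s j ≠ 0 := by
    intro h
    apply (Valuation.ne_zero_iff v).2 hgi
    rw [hv, h, map_zero, zero_mul, map_zero]
  rw [Finset.mem_range] at hi hj
  rcases lt_or_gt_of_ne hij with h | h
  · exact key i j h (by omega) hsi hsj hv
  · exact key j i h (by omega) hsj hsi hv.symm

/-- a uniformiser -/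
theorem PO2_unif {v : Valuation L Γ} {f : PowerSeries k →+* L} (hv1 : ∀ r, v (f r) ≤ 1)
    (hf : Function.Injective f) (hX1 : v (f PowerSeries.X) < 1) {e : ℕ} (hd : PO2_deg f e) :
    ∃ u : L, u ≠ 0 ∧ v u < 1 ∧ (∀ x, v x < 1 → v x ≤ v u) ∧
      ∀ x, (∀ n : ℕ, v x ≤ v u ^ n) → x = 0 := by
  have hfX : f PowerSeries.X ≠ 0 := by
    intro h
    rw [← map_zero f] at h
    exact PowerSeries.X_ne_zero (hf h)
  have hX : v (f PowerSeries.X) ≠ 0 := (Valuation.ne_zero_iff v).2 hfX
  have hX0 : 0 < v (f PowerSeries.X) := zero_lt_iff.2 hX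
  have hE : e.factorial ≠ 0 := Nat.factorial_ne_zero e
  have hanti : StrictAnti fun n : ℤ => v (f PowerSeries.X) ^ n := zpow_right_strictAnti₀ hX0 hX1
  have hex : ∃ m : ℕ, ∃ x : L, x ≠ 0 ∧ v x < 1 ∧ v x ^ e.factorial = v (f PowerSeries.X) ^ m :=
    ⟨e.factorial, f PowerSeries.X, hfX, hX1, rfl⟩
  obtain ⟨u, hu0, hu1, hum⟩ := Nat.find_spec hex
  have hmin : ∀ m : ℕ, m < Nat.find hex → ¬ ∃ x : L, x ≠ 0 ∧ v x < 1 ∧
      v x ^ e.factorial = v (f PowerSeries.X) ^ m := fun m hm => Nat.find_min hex hm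
  obtain ⟨m₀, hm₀⟩ : ∃ m₀, m₀ = Nat.find hex := ⟨_, rfl⟩
  rw [← hm₀] at hum hmin
  have hm0 : 0 < m₀ := by
    rcases Nat.eq_zero_or_pos m₀ with h | h
    · rw [h, pow_zero] at hum
      exact absurd hum (pow_lt_one₀ zero_le hu1 hE).ne
    · exact h
  refine ⟨u, hu0, hu1, fun x hx => ?_, fun x hx => ?_⟩
  · by_cases hx0 : x = 0
    · rw [hx0, map_zero]; exact zero_le
    obtain ⟨j, hj⟩ := PO2_disc hv1 hf hd x hx0
    have hj0 : 0 < j := by
      by_contra hcon
      push Not at hcon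
      have h1 : v x ^ e.factorial < 1 := pow_lt_one₀ zero_le hx hE
      rw [hj] at h1
      have h2 := hanti.antitone hcon
      simp only [zpow_zero] at h2
      exact absurd h1 (not_lt.2 h2)
    obtain ⟨m, rfl⟩ : ∃ m : ℕ, j = m := ⟨j.toNat, by omega⟩
    rw [zpow_natCast] at hj
    have hm : m₀ ≤ m := by
      by_contra hcon
      push Not at hcon
      exact hmin m hcon ⟨x, hx0, hx, hj⟩
    have h1 : v x ^ e.factorial ≤ v u ^ e.factorial := by
      rw [hj, hum]
      exact pow_le_pow_of_le_one zero_le hX1.le hm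
    exact le_of_pow_le_pow_left₀ hE zero_le h1
  · by_contra hx0
    obtain ⟨j, hj⟩ := PO2_disc hv1 hf hd x hx0
    have h1 : ∀ n : ℕ, ((m₀ * n : ℕ) : ℤ) ≤ j := by
      intro n
      by_contra hcon
      push Not at hcon
      have h2 : v x ^ e.factorial ≤ v (f PowerSeries.X) ^ ((m₀ * n : ℕ) : ℤ) := by
        calc v x ^ e.factorial ≤ (v u ^ n) ^ e.factorial := pow_le_pow_left₀ zero_le (hx n) _
          _ = v (f PowerSeries.X) ^ ((m₀ * n : ℕ) : ℤ) := by
            rw [← pow_mul, mul_comm n, pow_mul, hum, zpow_natCast, pow_mul]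
      rw [hj] at h2
      exact absurd h2 (not_le.2 (hanti hcon))
    have h2 := h1 (j.toNat + 1)
    have h3 : (j.toNat + 1) ≤ m₀ * (j.toNat + 1) := Nat.le_mul_of_pos_left _ hm0
    have h4 : ((j.toNat + 1 : ℕ) : ℤ) ≤ ((m₀ * (j.toNat + 1) : ℕ) : ℤ) := by exact_mod_cast h3
    omega

/-- the residue field -/
theorem PO2_res [IsAlgClosed k] {v : Valuation L Γ} {f : PowerSeries k →+* L}
    (hv1 : ∀ r, v (f r) ≤ 1) (hf : Function.Injective f) (hX1 : v (f PowerSeries.X) < 1) {e : ℕ}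
    (hd : PO2_deg f e) (x : L) (hx : v x ≤ 1) : ∃ c : k, v (x - f (PowerSeries.C c)) < 1 := by
  obtain ⟨s, ⟨t, hte, hst⟩, h0⟩ := hd x
  have hfX : f PowerSeries.X ≠ 0 := by
    intro h
    rw [← map_zero f] at h
    exact PowerSeries.X_ne_zero (hf h)
  have hex : ∃ m : ℕ, ∃ t ≤ e, PowerSeries.coeff m (s t) ≠ 0 := by
    by_contra hcon
    push Not at hcon
    exact hst (PowerSeries.ext fun m => by rw [hcon m t hte, map_zero])
  obtain ⟨t₀, ht₀, hct₀⟩ := Nat.find_spec hex
  have hmin : ∀ m : ℕ, m < Nat.find hex → ∀ t ≤ e, PowerSeries.coeff m (s t) = 0 := by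
    intro m hm t ht
    by_contra hcon
    exact Nat.find_min hex hm ⟨t, ht, hcon⟩
  obtain ⟨m, hm⟩ : ∃ m, m = Nat.find hex := ⟨_, rfl⟩
  rw [← hm] at hct₀ hmin
  have hdiv : ∀ t, ∃ r : PowerSeries k, t ≤ e → s t = PowerSeries.X ^ m * r := by
    intro t
    by_cases ht : t ≤ e
    · obtain ⟨r, hr⟩ := PowerSeries.X_pow_dvd_iff.2 fun i hi => hmin i hi t ht
      exact ⟨r, fun _ => hr⟩
    · exact ⟨0, fun h => absurd h ht⟩
  choose r hr using hdiv
  have hrt : PowerSeries.constantCoeff (r t₀) ≠ 0 := by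
    intro h
    apply hct₀
    rw [hr t₀ ht₀, PowerSeries.coeff_X_pow_mul', if_pos le_rfl, Nat.sub_self,
      PowerSeries.coeff_zero_eq_constantCoeff_apply, h]
  have h1 : ∑ t ∈ Finset.range (e + 1), f (r t) * x ^ t = 0 := by
    have h2 : f PowerSeries.X ^ m * ∑ t ∈ Finset.range (e + 1), f (r t) * x ^ t = 0 := by
      rw [Finset.mul_sum, ← h0]
      refine Finset.sum_congr rfl fun t ht => ?_
      rw [Finset.mem_range] at ht
      rw [hr t (by omega), map_mul, map_pow, mul_assoc]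
    exact (mul_eq_zero.1 h2).resolve_left (pow_ne_zero _ hfX)
  obtain ⟨p, hp⟩ : ∃ p : Polynomial k, p = ∑ t ∈ Finset.range (e + 1),
      Polynomial.monomial t (PowerSeries.constantCoeff (r t)) := ⟨_, rfl⟩
  have hp0 : p ≠ 0 := by
    intro h
    apply hrt
    have h2 : p.coeff t₀ = PowerSeries.constantCoeff (r t₀) := by
      rw [hp, Polynomial.finsetSum_coeff, Finset.sum_eq_single t₀]
      · rw [Polynomial.coeff_monomial, if_pos rfl]
      · intro i _ hi
        rw [Polynomial.coeff_monomial, if_neg hi]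
      · intro h'
        exact absurd (Finset.mem_range.2 (by omega)) h'
    rw [← h2, h, Polynomial.coeff_zero]
  obtain ⟨φ, hφ⟩ : ∃ φ : k →+* L, ∀ c, φ c = f (PowerSeries.C c) :=
    ⟨f.comp PowerSeries.C, fun _ => rfl⟩
  have hev : v (p.eval₂ φ x) < 1 := by
    have h2 : p.eval₂ φ x = ∑ t ∈ Finset.range (e + 1),
        f (PowerSeries.C (PowerSeries.constantCoeff (r t)) - r t) * x ^ t := by
      have h3 : ∑ t ∈ Finset.range (e + 1),
          f (PowerSeries.C (PowerSeries.constantCoeff (r t)) - r t) * x ^ t =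
          ∑ t ∈ Finset.range (e + 1), φ (PowerSeries.constantCoeff (r t)) * x ^ t -
          ∑ t ∈ Finset.range (e + 1), f (r t) * x ^ t := by
        rw [← Finset.sum_sub_distrib]
        refine Finset.sum_congr rfl fun t _ => ?_
        rw [map_sub, hφ]
        ring
      rw [h3, h1, sub_zero, hp, Polynomial.eval₂_finsetSum]
      refine Finset.sum_congr rfl fun t _ => ?_
      rw [Polynomial.eval₂_monomial]
    rw [h2]
    refine Valuation.map_sum_lt v one_ne_zero fun t _ => ?_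
    obtain ⟨q, hq⟩ : PowerSeries.X ∣ PowerSeries.C (PowerSeries.constantCoeff (r t)) - r t := by
      rw [PowerSeries.X_dvd_iff, map_sub, PowerSeries.constantCoeff_C, sub_self]
    rw [hq, map_mul, map_mul, map_mul, map_pow]
    calc v (f PowerSeries.X) * v (f q) * v x ^ t ≤ v (f PowerSeries.X) * 1 * 1 := by
          gcongr
          · exact hv1 q
          · exact pow_le_one₀ zero_le hx
      _ < 1 := by rw [mul_one, mul_one]; exact hX1
  by_contra hcon
  push Not at hcon
  have hone : ∀ c, v (x - φ c) = 1 := by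
    intro c
    refine le_antisymm ((Valuation.map_sub v _ _).trans (max_le hx ?_)) ?_
    · rw [hφ]; exact hv1 _
    · rw [hφ]; exact hcon c
  have hs := (IsAlgClosed.splits p).eq_prod_roots
  have h5 : p.eval₂ φ x = φ p.leadingCoeff * (p.roots.map fun a => x - φ a).prod := by
    conv_lhs => rw [hs]
    rw [Polynomial.eval₂_mul, Polynomial.eval₂_C, Polynomial.eval₂_multiset_prod, Multiset.map_map]
    congr 2
    refine Multiset.map_congr rfl fun a _ => ?_
    simp
  have h6 : v (p.eval₂ φ x) = 1 := by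
    rw [h5, map_mul, map_multiset_prod, Multiset.map_map]
    have h7 : v (φ p.leadingCoeff) = 1 := by
      rw [hφ]
      exact PO2_unit hv1 (by rw [PowerSeries.constantCoeff_C]; exact Polynomial.leadingCoeff_ne_zero.2 hp0)
    rw [h7, one_mul]
    refine Multiset.prod_eq_one fun y hy => ?_
    obtain ⟨a, -, rfl⟩ := Multiset.mem_map.1 hy
    exact hone a
  rw [h6] at hev
  exact lt_irrefl _ hev

/-! ### expansions in a uniformiser -/

theorem PO2_ev {v : Valuation L Γ} {φ : k →+* L} (hφ : ∀ c, v (φ c) ≤ 1) {u : L} (hu : v u ≤ 1)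
    (p : Polynomial k) : v (p.eval₂ φ u) ≤ 1 := by
  rw [Polynomial.eval₂_eq_sum_range]
  refine Valuation.map_sum_le v fun i _ => ?_
  rw [map_mul, map_pow]
  calc v (φ (p.coeff i)) * v u ^ i ≤ 1 * 1 := by
        gcongr
        · exact hφ _
        · exact pow_le_one₀ zero_le hu
    _ = 1 := mul_one _

/-- `x = ∑ F_i u^i` -/
def PO2_rel (v : Valuation L Γ) (φ : k →+* L) (u : L) (x : L) (F : PowerSeries k) : Prop :=
  ∀ n : ℕ, ∃ w : L, v w ≤ 1 ∧ x = (PowerSeries.trunc n F).eval₂ φ u + u ^ n * w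

theorem PO2_rel_add {v : Valuation L Γ} {φ : k →+* L} {u x y : L} {F G : PowerSeries k}
    (hF : PO2_rel v φ u x F) (hG : PO2_rel v φ u y G) : PO2_rel v φ u (x + y) (F + G) := by
  intro n
  obtain ⟨w, hw, hx⟩ := hF n
  obtain ⟨w', hw', hy⟩ := hG n
  refine ⟨w + w', Valuation.map_add_le v hw hw', ?_⟩
  rw [map_add, Polynomial.eval₂_add]
  nth_rewrite 1 [hx, hy]
  ring

theorem PO2_rel_mul {v : Valuation L Γ} {φ : k →+* L} (hφ : ∀ c, v (φ c) ≤ 1) {u : L}
    (hu : v u ≤ 1) {x y : L} {F G : PowerSeries k}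
    (hF : PO2_rel v φ u x F) (hG : PO2_rel v φ u y G) : PO2_rel v φ u (x * y) (F * G) := by
  intro n
  obtain ⟨w, hw, hx⟩ := hF n
  obtain ⟨w', hw', hy⟩ := hG n
  obtain ⟨R, hR⟩ : Polynomial.X ^ n ∣ PowerSeries.trunc n F * PowerSeries.trunc n G -
      PowerSeries.trunc n (F * G) := by
    rw [Polynomial.X_pow_dvd_iff]
    intro d hd
    have h1 := congrArg (fun p => Polynomial.coeff p d) (PowerSeries.trunc_trunc_mul_trunc (n := n) F G)
    simp only [PowerSeries.coeff_trunc, if_pos hd] at h1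
    rw [Polynomial.coeff_sub, PowerSeries.coeff_trunc, if_pos hd, ← h1, sub_eq_zero,
      ← Polynomial.coeff_coe, Polynomial.coe_mul]
  have hR' : PowerSeries.trunc n F * PowerSeries.trunc n G =
      PowerSeries.trunc n (F * G) + Polynomial.X ^ n * R := by rw [← hR]; ring
  have h2 := congrArg (Polynomial.eval₂ φ u) hR'
  rw [Polynomial.eval₂_mul, Polynomial.eval₂_add, Polynomial.eval₂_mul, Polynomial.eval₂_X_pow] at h2
  obtain ⟨P, hP⟩ : ∃ P, P = (PowerSeries.trunc n F).eval₂ φ u := ⟨_, rfl⟩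
  obtain ⟨Q, hQ⟩ : ∃ Q, Q = (PowerSeries.trunc n G).eval₂ φ u := ⟨_, rfl⟩
  have hPv : v P ≤ 1 := by rw [hP]; exact PO2_ev hφ hu _
  have hQv : v Q ≤ 1 := by rw [hQ]; exact PO2_ev hφ hu _
  rw [← hP] at hx h2
  rw [← hQ] at hy h2
  have hmul : ∀ a b : L, v a ≤ 1 → v b ≤ 1 → v (a * b) ≤ 1 := by
    intro a b ha hb
    rw [map_mul]
    exact mul_le_one' ha hb
  refine ⟨R.eval₂ φ u + (P * w' + w * Q + w * (u ^ n * w')), ?_, ?_⟩
  · refine Valuation.map_add_le v (PO2_ev hφ hu _) (Valuation.map_add_le v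
      (Valuation.map_add_le v (hmul _ _ hPv hw') (hmul _ _ hw hQv)) (hmul _ _ hw ?_))
    refine hmul _ _ ?_ hw'
    rw [map_pow]
    exact pow_le_one₀ zero_le hu
  · rw [hx, hy]
    linear_combination h2

theorem PO2_rel_C {v : Valuation L Γ} {φ : k →+* L} (hφ : ∀ c, v (φ c) ≤ 1) {u : L} (c : k) :
    PO2_rel v φ u (φ c) (PowerSeries.C c) := by
  intro n
  cases n with
  | zero => exact ⟨φ c, hφ c, by simp⟩
  | succ n => exact ⟨0, by simp, by rw [PowerSeries.trunc_C, Polynomial.eval₂_C]; simp⟩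

theorem PO2_rel_unique {v : Valuation L Γ} {φ : k →+* L} (hφ : ∀ c, c ≠ 0 → v (φ c) = 1) {u : L}
    (hu : v u < 1) (hu0 : u ≠ 0) {x : L} {F G : PowerSeries k}
    (hF : PO2_rel v φ u x F) (hG : PO2_rel v φ u x G) : F = G := by
  refine PowerSeries.ext fun m => ?_
  induction m using Nat.strong_induction_on with
  | _ m ih =>
    have h1 : PowerSeries.trunc m F = PowerSeries.trunc m G := by
      ext i
      rw [PowerSeries.coeff_trunc, PowerSeries.coeff_trunc]
      split_ifs with hi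
      · exact ih i hi
      · rfl
    obtain ⟨w, hw, hx⟩ := hF (m + 1)
    obtain ⟨w', hw', hy⟩ := hG (m + 1)
    rw [PowerSeries.trunc_succ, Polynomial.eval₂_add, Polynomial.eval₂_monomial] at hx hy
    rw [← h1] at hy
    by_contra hne
    have h2 : u ^ m * (φ (PowerSeries.coeff m F - PowerSeries.coeff m G) - u * (w' - w)) = 0 := by
      rw [map_sub]
      linear_combination hy - hx
    have h3 := (mul_eq_zero.1 h2).resolve_left (pow_ne_zero _ hu0)
    rw [sub_eq_zero] at h3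
    have h4 := hφ _ (sub_ne_zero.2 hne)
    rw [h3, map_mul] at h4
    have h5 : v u * v (w' - w) < 1 := by
      calc v u * v (w' - w) ≤ v u * 1 := by
            gcongr
            exact Valuation.map_sub_le v hw' hw
        _ < 1 := by rw [mul_one]; exact hu
    exact absurd h4 h5.ne

theorem PO2_rel_exists {v : Valuation L Γ} {φ : k →+* L} {u : L} (hu0 : u ≠ 0)
    (hmax : ∀ x, v x < 1 → v x ≤ v u) (hres : ∀ x, v x ≤ 1 → ∃ c : k, v (x - φ c) < 1) (x : L)
    (hx : v x ≤ 1) : ∃ F, PO2_rel v φ u x F := by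
  have hstep : ∀ x : L, ∃ (c : k) (w : L), v x ≤ 1 → v w ≤ 1 ∧ x = φ c + u * w := by
    intro x
    by_cases hx : v x ≤ 1
    · obtain ⟨c, hc⟩ := hres x hx
      refine ⟨c, (x - φ c) / u, fun _ => ⟨?_, by field_simp; ring⟩⟩
      rw [map_div₀]
      exact (div_le_one₀ (zero_lt_iff.2 ((Valuation.ne_zero_iff v).2 hu0))).2 (hmax _ hc)
    · exact ⟨0, 0, fun h => absurd h hx⟩
  choose c w hcw using hstep
  have hy : ∀ n, v (w^[n] x) ≤ 1 := by
    intro n
    induction n with
    | zero => exact hx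
    | succ n ih =>
      rw [Function.iterate_succ_apply']
      exact (hcw _ ih).1
  refine ⟨PowerSeries.mk fun n => c (w^[n] x), fun n => ⟨w^[n] x, hy n, ?_⟩⟩
  induction n with
  | zero => simp
  | succ n ih =>
    rw [PowerSeries.trunc_succ, Polynomial.eval₂_add, Polynomial.eval₂_monomial,
      PowerSeries.coeff_mk, Function.iterate_succ_apply']
    have h1 := (hcw _ (hy n)).2
    calc x = (PowerSeries.trunc n (PowerSeries.mk fun n => c (w^[n] x))).eval₂ φ u +
          u ^ n * w^[n] x := ih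
      _ = (PowerSeries.trunc n (PowerSeries.mk fun n => c (w^[n] x))).eval₂ φ u +
          u ^ n * (φ (c (w^[n] x)) + u * w (w^[n] x)) := by rw [← h1]
      _ = _ := by ring

/-- the expansion homomorphism on the valuation ring -/
theorem PO2_exp [IsAlgClosed k] {v : Valuation L Γ} {f : PowerSeries k →+* L}
    (hv1 : ∀ r, v (f r) ≤ 1) (hf : Function.Injective f) (hX1 : v (f PowerSeries.X) < 1) {e : ℕ}
    (hd : PO2_deg f e) : ∃ χ : L → PowerSeries k, (∀ x y, v x ≤ 1 → v y ≤ 1 →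
      χ (x + y) = χ x + χ y ∧ χ (x * y) = χ x * χ y) ∧ (∀ c, χ (f (PowerSeries.C c)) = PowerSeries.C c) ∧
      ∀ x, v x ≤ 1 → χ x = 0 → x = 0 := by
  obtain ⟨u, hu0, hu1, hmax, hinf⟩ := PO2_unif hv1 hf hX1 hd
  obtain ⟨φ, hφ⟩ : ∃ φ : k →+* L, ∀ c, φ c = f (PowerSeries.C c) :=
    ⟨f.comp PowerSeries.C, fun _ => rfl⟩
  have hφ1 : ∀ c, v (φ c) ≤ 1 := fun c => by rw [hφ]; exact hv1 _
  have hφ2 : ∀ c, c ≠ 0 → v (φ c) = 1 := fun c hc => by
    rw [hφ]
    exact PO2_unit hv1 (by rw [PowerSeries.constantCoeff_C]; exact hc)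
  have hres : ∀ x, v x ≤ 1 → ∃ c : k, v (x - φ c) < 1 := by
    intro x hx
    obtain ⟨c, hc⟩ := PO2_res hv1 hf hX1 hd x hx
    exact ⟨c, by rw [hφ]; exact hc⟩
  have hex : ∀ x : L, ∃ F : PowerSeries k, v x ≤ 1 → PO2_rel v φ u x F := by
    intro x
    by_cases hx : v x ≤ 1
    · obtain ⟨F, hF⟩ := PO2_rel_exists hu0 hmax hres x hx
      exact ⟨F, fun _ => hF⟩
    · exact ⟨0, fun h => absurd h hx⟩
  choose χ hχ using hex
  refine ⟨χ, fun x y hx hy => ⟨?_, ?_⟩, fun c => ?_, fun x hx h => ?_⟩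
  · exact PO2_rel_unique hφ2 hu1 hu0 (hχ _ (Valuation.map_add_le v hx hy))
      (PO2_rel_add (hχ x hx) (hχ y hy))
  · exact PO2_rel_unique hφ2 hu1 hu0 (hχ _ (by rw [map_mul]; exact mul_le_one' hx hy))
      (PO2_rel_mul hφ1 hu1.le (hχ x hx) (hχ y hy))
  · rw [← hφ]
    exact PO2_rel_unique hφ2 hu1 hu0 (hχ _ (hφ1 c)) (PO2_rel_C hφ1 c)
  · apply hinf
    intro n
    obtain ⟨w, hw, hxw⟩ := hχ x hx n
    rw [h] at hxw
    have ht : PowerSeries.trunc n (0 : PowerSeries k) = 0 := by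
      ext i
      simp [PowerSeries.coeff_trunc]
    rw [hxw, ht, Polynomial.eval₂_zero, zero_add, map_mul, map_pow]
    calc v u ^ n * v w ≤ v u ^ n * 1 := by gcongr
      _ = v u ^ n := mul_one _

end

theorem PO2_bd {k : Type} [Field k] {D : Type} [CommRing D] [IsDomain D] (φ : PowerSeries k →+* D)
    (hinj : Function.Injective φ) (hfin : φ.Finite) :
    ∃ e : ℕ, PO2_deg ((algebraMap D (FractionRing D)).comp φ) e := by
  letI : Algebra (PowerSeries k) D := φ.toAlgebra
  have hmod : Module.Finite (PowerSeries k) D := hfin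
  have halg : ∀ r, algebraMap (PowerSeries k) D r = φ r := fun _ => rfl
  have hint : Algebra.IsIntegral (PowerSeries k) D := Algebra.IsIntegral.of_finite _ _
  have hinj' : Function.Injective (algebraMap D (FractionRing D)) := IsFractionRing.injective D _
  have hD0 : ∀ r : PowerSeries k, r ≠ 0 → φ r ≠ 0 := fun r hr h => hr (hinj (by rw [h, map_zero]))
  refine ⟨Module.finrank (PowerSeries k) D, fun x => ?_⟩
  -- write `x = a / X ^ l`
  obtain ⟨a, l, hal⟩ : ∃ (a : D) (l : ℕ), x * algebraMap D (FractionRing D) (φ PowerSeries.X) ^ l =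
      algebraMap D (FractionRing D) a := by
    obtain ⟨a, b, hb, hab⟩ := IsFractionRing.div_surjective (A := D) x
    have hb0 : b ≠ 0 := nonZeroDivisors.ne_zero hb
    obtain ⟨r, hr0, b', hb'⟩ := (hint.isIntegral b).isAlgebraic.exists_nonzero_dvd hb
    rw [halg] at hb'
    obtain ⟨m, s, hs, rfl⟩ := PO2_fac r hr0
    refine ⟨a * b' * φ s⁻¹, m, ?_⟩
    have h1 : s * s⁻¹ = 1 := PowerSeries.mul_inv_cancel s hs
    have h2 : φ PowerSeries.X ^ m = b * b' * φ s⁻¹ := by
      calc φ PowerSeries.X ^ m = φ (PowerSeries.X ^ m * s) * φ s⁻¹ := by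
            rw [← map_mul, mul_assoc, h1, mul_one, map_pow]
        _ = b * b' * φ s⁻¹ := by rw [hb']
    rw [← map_pow, h2, ← hab]
    have h3 : algebraMap D (FractionRing D) b ≠ 0 := by
      intro h
      rw [← map_zero (algebraMap D (FractionRing D))] at h
      exact hb0 (hinj' h)
    simp only [map_mul]
    field_simp
  have hli : ¬ LinearIndependent (PowerSeries k)
      (fun i : Fin (Module.finrank (PowerSeries k) D + 1) => a ^ (i : ℕ)) := by
    intro h
    have := h.fintype_card_le_finrank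
    rw [Fintype.card_fin] at this
    omega
  rw [Fintype.not_linearIndependent_iff] at hli
  obtain ⟨g, hg, i, hi⟩ := hli
  refine ⟨fun t => if h : t < Module.finrank (PowerSeries k) D + 1 then
    g ⟨t, h⟩ * PowerSeries.X ^ (l * t) else 0, ⟨i, by omega, ?_⟩, ?_⟩
  · simp only
    rw [dif_pos i.2]
    exact mul_ne_zero hi (pow_ne_zero _ PowerSeries.X_ne_zero)
  · rw [Finset.sum_range]
    have h1 : ∀ i : Fin (Module.finrank (PowerSeries k) D + 1),
        ((algebraMap D (FractionRing D)).comp φ) (if h : (i : ℕ) < Module.finrank (PowerSeries k) D + 1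
          then g ⟨i, h⟩ * PowerSeries.X ^ (l * (i : ℕ)) else 0) * x ^ (i : ℕ) =
        algebraMap D (FractionRing D) (g i • a ^ (i : ℕ)) := by
      intro i
      rw [dif_pos i.2, RingHom.comp_apply, map_mul, map_mul, Algebra.smul_def, halg, map_mul,
        map_pow φ, map_pow, map_pow (algebraMap D (FractionRing D)) a, ← hal]
      ring
    rw [Finset.sum_congr rfl fun i _ => h1 i, ← map_sum, hg, map_zero]

theorem PO2_int {R L : Type} [CommRing R] [Field L] {Γ : Type*} [LinearOrderedCommGroupWithZero Γ]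
    {v : Valuation L Γ} {f : R →+* L} (hv1 : ∀ r, v (f r) ≤ 1) {x : L}
    (hx : f.IsIntegralElem x) : v x ≤ 1 := by
  obtain ⟨p, hp, hpx⟩ := hx
  by_contra hcon
  push Not at hcon
  have hx0 : v x ≠ 0 := (zero_lt_one.trans hcon).ne'
  have h1 : x ^ p.natDegree = - ∑ i ∈ Finset.range p.natDegree, f (p.coeff i) * x ^ i := by
    rw [Polynomial.eval₂_eq_sum_range, Finset.sum_range_succ, hp.coeff_natDegree, map_one,
      one_mul] at hpx
    linear_combination hpx
  have h2 : v (∑ i ∈ Finset.range p.natDegree, f (p.coeff i) * x ^ i) < v x ^ p.natDegree := by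
    refine Valuation.map_sum_lt v (pow_ne_zero _ hx0) fun i hi => ?_
    rw [Finset.mem_range] at hi
    rw [map_mul, map_pow]
    calc v (f (p.coeff i)) * v x ^ i ≤ 1 * v x ^ i := by
          gcongr
          exact hv1 _
      _ = v x ^ i := one_mul _
      _ < v x ^ p.natDegree := pow_lt_pow_right₀ hcon hi
  have h3 := congrArg v h1
  rw [Valuation.map_neg, map_pow] at h3
  rw [← h3] at h2
  exact lt_irrefl _ h2

theorem PO2 : PO2_stmt := by
  intro k _ _ D _ _ _ φ hφ hfin
  obtain ⟨e, hd⟩ := PO2_bd (φ : PowerSeries k →+* D) hφ hfin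
  obtain ⟨f, hf⟩ : ∃ f : PowerSeries k →+* FractionRing D,
    f = (algebraMap D (FractionRing D)).comp (φ : PowerSeries k →+* D) := ⟨_, rfl⟩
  rw [← hf] at hd
  have hfi : Function.Injective f := by
    rw [hf]
    exact (IsFractionRing.injective D (FractionRing D)).comp hφ
  obtain ⟨A, hA, hloc⟩ := IsLocalRing.exists_factor_valuationRing f
  have hv1 : ∀ r, A.valuation (f r) ≤ 1 := fun r => (A.valuation_le_one_iff _).2 (hA r)
  have hX1 : A.valuation (f PowerSeries.X) < 1 := by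
    rcases A.valuation_lt_one_or_eq_one ⟨f PowerSeries.X, hA _⟩ with h | h
    · exact h
    · exfalso
      have h1 : IsUnit (⟨f PowerSeries.X, hA _⟩ : A) := (A.valuation_eq_one_iff _).2 h
      have h2 : IsUnit (PowerSeries.X : PowerSeries k) := hloc.map_nonunit _ h1
      rw [PowerSeries.isUnit_iff_constantCoeff, PowerSeries.constantCoeff_X] at h2
      exact not_isUnit_zero h2
  obtain ⟨χ, hχ1, hχC, hχ0⟩ := PO2_exp hv1 hfi hX1 hd
  have hint : ∀ d : D, A.valuation (algebraMap D (FractionRing D) d) ≤ 1 := by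
    intro d
    apply PO2_int hv1
    obtain ⟨p, hp, hpd⟩ := hfin.to_isIntegral d
    refine ⟨p, hp, ?_⟩
    rw [hf, ← Polynomial.hom_eval₂]
    have hpd' : Polynomial.eval₂ (φ : PowerSeries k →+* D) d p = 0 := hpd
    rw [hpd', map_zero]
  have hone : χ 1 = 1 := by
    have := hχC 1
    rwa [map_one, map_one] at this
  have hzero : χ 0 = 0 := by
    have := hχC 0
    rwa [map_zero, map_zero] at this
  refine ⟨{ toFun := fun d => χ (algebraMap D (FractionRing D) d)
            map_one' := by rw [map_one, hone]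
            map_mul' := fun x y => by rw [map_mul, (hχ1 _ _ (hint x) (hint y)).2]
            map_zero' := by rw [map_zero, hzero]
            map_add' := fun x y => by rw [map_add, (hχ1 _ _ (hint x) (hint y)).1]
            commutes' := fun c => ?_ }, ?_⟩
  · have h1 : algebraMap D (FractionRing D) (algebraMap k D c) = f (PowerSeries.C c) := by
      have h2 : φ (PowerSeries.C c) = algebraMap k D c := φ.commutes c
      rw [hf, RingHom.comp_apply, ← h2]
      rfl
    rw [h1, hχC]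
    rfl
  · intro x y hxy
    have hxy' : χ (algebraMap D (FractionRing D) x) = χ (algebraMap D (FractionRing D) y) := hxy
    apply IsFractionRing.injective D (FractionRing D)
    have hy : A.valuation (algebraMap D (FractionRing D) (-y)) ≤ 1 := hint _
    have h1 := (hχ1 _ _ (hint x) hy).1
    have h2 := (hχ1 _ _ (hint y) hy).1
    rw [← hxy', ← h1] at h2
    have h3 : algebraMap D (FractionRing D) y + algebraMap D (FractionRing D) (-y) = 0 := by
      rw [← map_add, add_neg_cancel, map_zero]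
    rw [h3, hzero] at h2
    have h4 := hχ0 _ (Valuation.map_add_le _ (hint x) hy) h2.symm
    rw [map_neg] at h4
    linear_combination h4

end AN
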